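import Mathlib
import Pool.Agent.Q183.BV.Growth

set_option autoImplicit false

/-!
# The variational estimate (iv) fails when `p₂ = ∞`

For every polynomial `P ∈ ℤ[n]` of degree at least `2`, every finite exponent `p₁`, every `r > 0` and every `lam`
there are a `lam`-lacunary set `D` of scales, `f ∈ ℓ^{p₁}(ℤ)` and `g ∈ ℓ^∞(ℤ)` such that, for the shift on `ℤ` with
counting measure, the `ℓ^{p₁}` norm of the `r`-variation of `(A_N(f,g))_{N ∈ D}` is infinite.
-/

namespace Pool.Agent.Results.MP_779522_an.EndpointVariationFails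

open MeasureTheory Filter Topology Finset
open scoped ENNReal NNReal

/-- The bilinear average `A_N(f,g)(x) = ⌊N⌋⁻¹ ∑_{n=1}^{⌊N⌋} f(Tⁿx) g(T^{P(n)}x)`. -/
noncomputable def avg {X : Type} (T : Equiv.Perm X) (P : Polynomial ℤ) (f g : X → ℂ) (N : ℝ) (x : X) : ℂ :=
  (1 / (⌊N⌋₊ : ℂ)) * ∑ n ∈ Finset.Icc 1 ⌊N⌋₊, f ((T ^ n) x) * g ((T ^ (P.eval (n : ℤ))) x)

/-- `D ⊆ [1,∞)` is `lam`-lacunary: `N' ≥ lam * N` whenever `N < N'` in `D`. -/
def Lacunary (lam : ℝ) (D : Set ℝ) : Prop :=
  D ⊆ Set.Ici 1 ∧ ∀ N ∈ D, ∀ N' ∈ D, N < N' → lam * N ≤ N'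

/-- The norm `‖(a_N)_{N ∈ D}‖_{V^r}`, with values in `[0,∞]`: the supremum of `|a_N|` over `D` plus the supremum of
`(∑_j |a_{N_{j+1}} - a_{N_j}|^r)^{1/r}` over all finite increasing chains `N_0 < N_1 < ... < N_J` in `D`. -/
noncomputable def vNorm (r : ℝ) (D : Set ℝ) (a : ℝ → ℂ) : ℝ≥0∞ :=
  (⨆ N ∈ D, ‖a N‖ₑ) +
    ⨆ (J : ℕ) (u : Fin (J + 1) → ℝ) (_ : StrictMono u ∧ ∀ i, u i ∈ D),
      (∑ i : Fin J, ‖a (u i.succ) - a (u i.castSucc)‖ₑ ^ r) ^ (1 / r)

/-- Property (iv) at the exponents `p₁, p₂, p`, for given `P`, `r`, `lam`: one constant `C` works for all `σ`-finite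
invertible measure preserving systems, all `f ∈ L^{p₁}`, `g ∈ L^{p₂}` and all `lam`-lacunary `D`. -/
def PropertyIV (p₁ p₂ p : ℝ≥0∞) (P : Polynomial ℤ) (r lam : ℝ) : Prop :=
  ∃ C : ℝ≥0, ∀ (X : Type) [MeasurableSpace X] (μ : Measure X) [SigmaFinite μ] (T : X ≃ᵐ X),
    MeasurePreserving T μ μ → ∀ f g : X → ℂ, MemLp f p₁ μ → MemLp g p₂ μ →
      ∀ D : Set ℝ, Lacunary lam D →
        eLpNorm (fun x => vNorm r D (fun N => avg T.toEquiv P f g N x)) p μ ≤
          C * eLpNorm f p₁ μ * eLpNorm g p₂ μ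

theorem vNorm_ge (r : ℝ) (hr : 0 < r) (D : Set ℝ) (a : ℝ → ℂ) (J : ℕ) (u : Fin (J + 1) → ℝ)
    (hu : StrictMono u) (huD : ∀ i, u i ∈ D) (c : ℝ≥0∞)
    (h : ∀ i : Fin J, c ≤ ‖a (u i.succ) - a (u i.castSucc)‖ₑ) :
    ((J : ℝ≥0∞) * c ^ r) ^ (1 / r) ≤ vNorm r D a := by
  refine le_trans ?_ (le_add_left le_rfl)
  refine le_trans ?_ (le_iSup_of_le J (le_iSup_of_le u (le_iSup_of_le ⟨hu, huD⟩ le_rfl)))
  refine ENNReal.rpow_le_rpow ?_ (by positivity)
  calc (J : ℝ≥0∞) * c ^ r = ∑ i : Fin J, c ^ r := by simp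
    _ ≤ _ := Finset.sum_le_sum fun i _ => ENNReal.rpow_le_rpow (h i) hr.le

theorem pow_shift (n : ℕ) (x : ℤ) : ((Equiv.addRight (1 : ℤ)) ^ n) x = x + n := by
  induction n generalizing x with
  | zero => simp
  | succ n ih =>
    rw [pow_succ, Equiv.Perm.mul_apply, ih]
    simp only [Equiv.coe_addRight]
    push_cast; ring

theorem pow_shift_symm (n : ℕ) (x : ℤ) : (((Equiv.addRight (1 : ℤ)) ^ n)⁻¹) x = x - n := by
  rw [Equiv.Perm.inv_eq_iff_eq, pow_shift]; ring

theorem zpow_shift (n : ℤ) (x : ℤ) : ((Equiv.addRight (1 : ℤ)) ^ n) x = x + n := by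
  obtain ⟨m, rfl | rfl⟩ := n.eq_nat_or_neg
  · rw [zpow_natCast, pow_shift]
  · rw [zpow_neg, zpow_natCast, pow_shift_symm]; ring

theorem core (P : Polynomial ℤ) (hP : 2 ≤ P.natDegree) (p : ℝ) (hp : 0 < p) (r : ℝ) (hr : 0 < r) (lam : ℝ) :
    ∃ (D : Set ℝ) (f g : ℤ → ℂ), Lacunary lam D ∧ (∑' x, ‖f x‖ₑ ^ p ≠ ∞) ∧ (∀ y, ‖g y‖ ≤ 1) ∧
      ∑' x, (vNorm r D (fun N => avg (Equiv.addRight 1) P f g N x)) ^ p = ∞ := by
  classical
  obtain ⟨B₀, hB₀, hw⟩ := Pool.Agent.Q183.BV.window P hP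
  set B : ℕ := 8 * max B₀ ⌈lam⌉₊ with hB
  have hBB₀ : B₀ ≤ B := by
    have := le_max_left B₀ ⌈lam⌉₊; omega
  have hBlam : lam ≤ B := by
    have h1 : lam ≤ (⌈lam⌉₊ : ℝ) := Nat.le_ceil _
    have h2 : (⌈lam⌉₊ : ℝ) ≤ (B : ℝ) := by
      have := le_max_right B₀ ⌈lam⌉₊
      exact_mod_cast (by omega : ⌈lam⌉₊ ≤ B)
    linarith
  have hB2 : 2 ≤ B := by omega
  have hB1 : (1 : ℝ) ≤ B := by exact_mod_cast (by omega : 1 ≤ B)
  have hB1' : (1 : ℝ) < B := by exact_mod_cast (by omega : 1 < B)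
  choose R s hRL hs hbd hsum using hw B hBB₀ ⟨_, rfl⟩
  set J : ℕ → ℕ := fun k => ⌈(2 * ((k : ℝ) + 1) ^ 2) ^ (r / p)⌉₊ with hJdef
  have hJ : ∀ k : ℕ, 2 * ((k : ℝ) + 1) ^ 2 ≤ (J k : ℝ) ^ (p / r) := by
    intro k
    have h1 : (2 * ((k : ℝ) + 1) ^ 2) ^ (r / p) ≤ J k := Nat.le_ceil _
    have h2 : ((2 * ((k : ℝ) + 1) ^ 2) ^ (r / p)) ^ (p / r) ≤ (J k : ℝ) ^ (p / r) :=
      Real.rpow_le_rpow (by positivity) h1 (by positivity)
    rwa [← Real.rpow_mul (by positivity), div_mul_div_comm, mul_comm r p, div_self (by positivity),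
      Real.rpow_one] at h2
  set K : ℕ → ℕ := fun k => J k + 1 with hK
  set L : ℕ → ℕ := fun k => B ^ (2 * K k) with hL
  set Q : ℕ → ℕ := fun k => R (K k) with hQ
  have hLpos : ∀ k, 0 < L k := fun k => pow_pos (by omega) _
  have hQL : ∀ k, 2 * L k ≤ Q k := fun k => hRL (K k)
  set X : ℕ → ℤ := fun k => ∑ i ∈ range k, ((Q i : ℤ) + Q (i + 1) + 1) with hX
  have hXs : ∀ k, X (k + 1) = X k + Q k + Q (k + 1) + 1 := by
    intro k; simp only [hX, sum_range_succ]; ring
  have hsep : ∀ i k, i < k → X i + Q i < X k - Q k := by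
    intro i k hik
    induction k, hik using Nat.le_induction with
    | base => rw [hXs]; linarith
    | succ k hk ih => rw [hXs]; linarith [show (0 : ℤ) ≤ Q k by positivity]
  have huniq : ∀ (y : ℤ) (i k : ℕ), |y - X i| ≤ Q i → |y - X k| ≤ Q k → i = k := by
    intro y i k h1 h2
    rw [abs_le] at h1 h2
    rcases lt_trichotomy i k with h | h | h
    · have := hsep i k h; omega
    · exact h
    · have := hsep k i h; omega
  have hin : ∀ (y : ℤ) (k : ℕ), X k ≤ y → y < X k + 2 * L k → |y - X k| ≤ Q k := by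
    intro y k h1 h2
    have := hQL k
    rw [abs_le]
    constructor <;> omega
  set c : ℕ → ℝ := fun k => (1 / (2 * (L k : ℝ) * ((k : ℝ) + 1) ^ 2)) ^ (1 / p) with hc
  have hc0 : ∀ k, 0 < c k := fun k => by
    have : (0 : ℝ) < L k := by exact_mod_cast hLpos k
    simp only [hc]; positivity
  have hcp : ∀ k, (c k) ^ p = 1 / (2 * (L k : ℝ) * ((k : ℝ) + 1) ^ 2) := by
    intro k
    have : (0 : ℝ) < L k := by exact_mod_cast hLpos k
    simp only [hc]
    rw [← Real.rpow_mul (by positivity), one_div_mul_cancel hp.ne', Real.rpow_one]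
  set f : ℤ → ℂ := fun y => if h : ∃ k, X k ≤ y ∧ y < X k + 2 * L k then ((c h.choose : ℝ) : ℂ) else 0
    with hf
  have hfk : ∀ (y : ℤ) (k : ℕ), X k ≤ y → y < X k + 2 * L k → f y = ((c k : ℝ) : ℂ) := by
    intro y k h1 h2
    have h : ∃ k, X k ≤ y ∧ y < X k + 2 * L k := ⟨k, h1, h2⟩
    have e : h.choose = k := huniq y _ _ (hin _ _ h.choose_spec.1 h.choose_spec.2) (hin _ _ h1 h2)
    simp only [hf, dif_pos h, e]
  have hf0 : ∀ y, (¬ ∃ k, X k ≤ y ∧ y < X k + 2 * L k) → f y = 0 := by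
    intro y h; simp only [hf, dif_neg h]
  set g : ℤ → ℂ := fun y => if h : ∃ k, |y - X k| ≤ Q k then ((s (K h.choose) (y - X h.choose) : ℝ) : ℂ) else 0
    with hg
  have hgk : ∀ (y : ℤ) (k : ℕ), |y - X k| ≤ Q k → g y = ((s (K k) (y - X k) : ℝ) : ℂ) := by
    intro y k h1
    have h : ∃ k, |y - X k| ≤ Q k := ⟨k, h1⟩
    have e : h.choose = k := huniq y _ _ h.choose_spec h1
    simp only [hg, dif_pos h, e]
  set D : Set ℝ := {N | ∃ j : ℕ, N = (B : ℝ) ^ j} with hD
  refine ⟨D, f, g, ?_, ?_, ?_, ?_⟩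
  · constructor
    · rintro N ⟨j, rfl⟩
      exact one_le_pow₀ hB1
    · rintro N ⟨i, rfl⟩ N' ⟨j, rfl⟩ hlt
      have hij : i < j := (pow_lt_pow_iff_right₀ hB1').mp hlt
      calc lam * (B : ℝ) ^ i ≤ B * (B : ℝ) ^ i := by
            exact mul_le_mul_of_nonneg_right hBlam (by positivity)
        _ = (B : ℝ) ^ (i + 1) := by rw [pow_succ]; ring
        _ ≤ (B : ℝ) ^ j := pow_le_pow_right₀ hB1 hij
  · -- `f ∈ ℓ^p`
    have hle : ∀ y, ‖f y‖ₑ ^ p ≤ ∑' k, Set.indicator (↑(Finset.Ico (X k) (X k + 2 * L k)) : Set ℤ)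
        (fun _ => ENNReal.ofReal (c k) ^ p) y := by
      intro y
      by_cases h : ∃ k, X k ≤ y ∧ y < X k + 2 * L k
      · obtain ⟨k, h1, h2⟩ := h
        refine le_trans ?_ (ENNReal.le_tsum k)
        rw [Set.indicator_of_mem (by simp [h1, h2]), hfk y k h1 h2]
        refine ENNReal.rpow_le_rpow ?_ hp.le
        rw [← ofReal_norm]
        refine ENNReal.ofReal_le_ofReal ?_
        rw [Complex.norm_real, Real.norm_of_nonneg (hc0 k).le]
      · rw [hf0 y h]
        simp [hp]
    have hfin : ∑' y, ‖f y‖ₑ ^ p ≤ ∑' k : ℕ, ENNReal.ofReal (1 / ((k : ℝ) + 1) ^ 2) := by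
      calc ∑' y, ‖f y‖ₑ ^ p ≤ ∑' y, ∑' k, Set.indicator (↑(Finset.Ico (X k) (X k + 2 * L k)) : Set ℤ)
            (fun _ => ENNReal.ofReal (c k) ^ p) y := ENNReal.tsum_le_tsum hle
        _ = ∑' k, ∑' y, Set.indicator (↑(Finset.Ico (X k) (X k + 2 * L k)) : Set ℤ)
            (fun _ => ENNReal.ofReal (c k) ^ p) y := ENNReal.tsum_comm
        _ ≤ _ := by
            refine ENNReal.tsum_le_tsum fun k => ?_
            rw [← _root_.tsum_subtype, Finset.tsum_subtype' (Finset.Ico (X k) (X k + 2 * L k))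
              (fun _ => ENNReal.ofReal (c k) ^ p), sum_const, Int.card_Ico, nsmul_eq_mul,
              ENNReal.ofReal_rpow_of_nonneg (hc0 k).le hp.le, hcp]
            have hLk : (0 : ℝ) < L k := by exact_mod_cast hLpos k
            have e1 : (X k + 2 * (L k : ℤ) - X k).toNat = 2 * L k := by omega
            rw [e1, ← ENNReal.ofReal_natCast, ← ENNReal.ofReal_mul (by positivity)]
            refine ENNReal.ofReal_le_ofReal (le_of_eq ?_)
            push_cast
            field_simp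
    refine ne_top_of_le_ne_top ?_ hfin
    have hsumm : Summable fun k : ℕ => 1 / ((k : ℝ) + 1) ^ 2 := by
      have := (summable_nat_add_iff 1).mpr (Real.summable_one_div_nat_pow.mpr (by norm_num : 1 < 2))
      simpa using this
    rw [← ENNReal.ofReal_tsum_of_nonneg (fun k => by positivity) hsumm]
    exact ENNReal.ofReal_ne_top
  · intro y
    simp only [hg]
    split_ifs with h
    · rw [Complex.norm_real, Real.norm_eq_abs, hs]
    · simp
  · -- divergence
    have hpt : ∀ (k : ℕ) (x : ℤ), X k ≤ x → x < X k + L k →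
        ENNReal.ofReal (2 * ((k : ℝ) + 1) ^ 2 * (c k) ^ p) ≤
          (vNorm r D (fun N => avg (Equiv.addRight 1) P f g N x)) ^ p := by
      intro k x hx1 hx2
      have hxk1 : 0 ≤ x - X k := by linarith
      have hxk2 : x - X k < (B : ℤ) ^ (2 * K k) := by
        have : ((L k : ℕ) : ℤ) = (B : ℤ) ^ (2 * K k) := by simp [hL]
        rw [← this]; linarith
      -- the averages
      have havg : ∀ j : ℕ, 1 ≤ j → j ≤ K k →
          avg (Equiv.addRight 1) P f g ((B : ℝ) ^ (K k + j)) x =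
            ((c k * ((1 / ((B ^ (K k + j) : ℕ) : ℝ)) *
              ∑ n ∈ Icc 1 (B ^ (K k + j)), s (K k) (x - X k + P.eval (n : ℤ))) : ℝ) : ℂ) := by
        intro j hj1 hj2
        have hfl : ⌊(B : ℝ) ^ (K k + j)⌋₊ = B ^ (K k + j) := by
          have : ((B : ℝ) ^ (K k + j)) = ((B ^ (K k + j) : ℕ) : ℝ) := by push_cast; rfl
          rw [this, Nat.floor_natCast]
        have hNL : B ^ (K k + j) ≤ L k := Nat.pow_le_pow_right (by omega) (by omega)
        unfold avg
        rw [hfl, Complex.ofReal_mul, Complex.ofReal_mul, Complex.ofReal_sum, Complex.ofReal_div,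
          Complex.ofReal_one, Complex.ofReal_natCast, mul_left_comm, mul_sum, mul_sum, mul_sum]
        refine sum_congr rfl fun n hn => ?_
        obtain ⟨hn1, hn2⟩ := mem_Icc.mp hn
        have e1 : ((Equiv.addRight (1 : ℤ)) ^ n) x = x + n := by
          exact pow_shift n x
        have e2 : ((Equiv.addRight (1 : ℤ)) ^ (P.eval (n : ℤ))) x = x + P.eval (n : ℤ) := by
          exact zpow_shift _ x
        rw [e1, e2, hfk (x + n) k (by linarith [show (0 : ℤ) ≤ n by positivity]) (by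
          have : (n : ℤ) ≤ L k := by exact_mod_cast hn2.trans hNL
          linarith)]
        have e3 : x + P.eval (n : ℤ) - X k = x - X k + P.eval (n : ℤ) := by ring
        rw [hgk (x + P.eval (n : ℤ)) k (by
          rw [e3]
          exact hbd (K k) (x - X k) hxk1 hxk2 n hn1 (hn2.trans hNL)), e3]
      have hv : ((J k : ℝ≥0∞) * (ENNReal.ofReal (c k)) ^ r) ^ (1 / r) ≤
          vNorm r D (fun N => avg (Equiv.addRight 1) P f g N x) := by
        refine vNorm_ge r hr D _ (J k) (fun i => (B : ℝ) ^ (K k + (i.val + 1))) ?_ ?_ _ ?_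
        · intro i j hij
          have : i.val < j.val := hij
          exact pow_lt_pow_right₀ hB1' (by omega)
        · intro i; exact ⟨_, rfl⟩
        · intro i
          have hi : i.val < J k := i.isLt
          simp only [Fin.val_succ, Fin.val_castSucc]
          rw [havg (i.val + 1 + 1) (by omega) (by simp only [hK]; omega),
            havg (i.val + 1) (by omega) (by simp only [hK]; omega), ← Complex.ofReal_sub,
            ← ofReal_norm, Complex.norm_real, Real.norm_eq_abs]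
          refine ENNReal.ofReal_le_ofReal ?_
          have h1 := hsum (K k) (x - X k) hxk1 hxk2 (i.val + 1) (by omega) (by simp only [hK]; omega)
          have h2 := hsum (K k) (x - X k) hxk1 hxk2 (i.val + 1 + 1) (by omega) (by simp only [hK]; omega)
          set S1 := ∑ n ∈ Icc 1 (B ^ (K k + (i.val + 1))), s (K k) (x - X k + P.eval (n : ℤ))
          set S2 := ∑ n ∈ Icc 1 (B ^ (K k + (i.val + 1 + 1))), s (K k) (x - X k + P.eval (n : ℤ))
          set N1 : ℝ := ((B ^ (K k + (i.val + 1)) : ℕ) : ℝ) with hN1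
          set N2 : ℝ := ((B ^ (K k + (i.val + 1 + 1)) : ℕ) : ℝ) with hN2
          have hN1p : 0 < N1 := by rw [hN1]; exact_mod_cast pow_pos (by omega : 0 < B) _
          have hN2p : 0 < N2 := by rw [hN2]; exact_mod_cast pow_pos (by omega : 0 < B) _
          have g1 : 3 / 4 ≤ (-1) ^ (i.val + 1) * (1 / N1 * S1) := by
            rw [show (-1 : ℝ) ^ (i.val + 1) * (1 / N1 * S1) = ((-1) ^ (i.val + 1) * S1) / N1 by ring,
              le_div_iff₀ hN1p]
            exact h1
          have g2 : 3 / 4 ≤ (-1) ^ (i.val + 1 + 1) * (1 / N2 * S2) := by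
            rw [show (-1 : ℝ) ^ (i.val + 1 + 1) * (1 / N2 * S2) = ((-1) ^ (i.val + 1 + 1) * S2) / N2 by ring,
              le_div_iff₀ hN2p]
            exact h2
          rw [← mul_sub, abs_mul, abs_of_pos (hc0 k)]
          have g3 : 1 ≤ |1 / N2 * S2 - 1 / N1 * S1| := by
            rw [pow_succ] at g2
            rcases neg_one_pow_eq_or ℝ (i.val + 1) with h' | h'
            · rw [h'] at g1 g2
              rw [le_abs]; right; linarith
            · rw [h'] at g1 g2
              rw [le_abs]; left; linarith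
          nlinarith [hc0 k]
      have hv2 := ENNReal.rpow_le_rpow hv hp.le
      refine le_trans ?_ hv2
      rw [← ENNReal.rpow_mul, ENNReal.mul_rpow_of_nonneg _ _ (by positivity), ← ENNReal.rpow_mul,
        show r * (1 / r * p) = p by field_simp, ENNReal.ofReal_rpow_of_nonneg (hc0 k).le hp.le,
        ← ENNReal.ofReal_natCast, ENNReal.ofReal_rpow_of_nonneg (by positivity) (by positivity),
        ← ENNReal.ofReal_mul (by positivity)]
      refine ENNReal.ofReal_le_ofReal ?_
      refine mul_le_mul_of_nonneg_right ?_ (by have := hc0 k; positivity)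
      rw [show 1 / r * p = p / r by ring]
      exact hJ k
    -- sum over the windows
    refine ENNReal.eq_top_of_forall_nnreal_le fun b => ?_
    obtain ⟨n, hn⟩ := exists_nat_ge b
    have hdisj : Set.PairwiseDisjoint (↑(range n) : Set ℕ) fun k => Finset.Ico (X k) (X k + L k) := by
      intro i _ k _ hik
      rw [Function.onFun, Finset.disjoint_left]
      intro y hy hy'
      rw [Finset.mem_Ico] at hy hy'
      refine hik (huniq y i k (hin y i hy.1 (by have := hLpos i; omega))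
        (hin y k hy'.1 (by have := hLpos k; omega)))
    calc (b : ℝ≥0∞) ≤ (n : ℝ≥0∞) := by exact_mod_cast hn
      _ = ∑ k ∈ range n, (1 : ℝ≥0∞) := by simp
      _ ≤ ∑ k ∈ range n, ∑ x ∈ Finset.Ico (X k) (X k + L k),
          (vNorm r D (fun N => avg (Equiv.addRight 1) P f g N x)) ^ p := by
          refine sum_le_sum fun k _ => ?_
          have hLk : (0 : ℝ) < L k := by exact_mod_cast hLpos k
          calc (1 : ℝ≥0∞) = ∑ x ∈ Finset.Ico (X k) (X k + L k),
                ENNReal.ofReal (2 * ((k : ℝ) + 1) ^ 2 * (c k) ^ p) := by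
                rw [sum_const, Int.card_Ico, nsmul_eq_mul, hcp]
                have e1 : (X k + (L k : ℤ) - X k).toNat = L k := by omega
                rw [e1, ← ENNReal.ofReal_natCast, ← ENNReal.ofReal_mul (by positivity),
                  ← ENNReal.ofReal_one]
                congr 1
                field_simp
            _ ≤ _ := by
                refine sum_le_sum fun x hx => ?_
                rw [Finset.mem_Ico] at hx
                exact hpt k x hx.1 hx.2
      _ = ∑ x ∈ (range n).biUnion (fun k => Finset.Ico (X k) (X k + L k)),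
          (vNorm r D (fun N => avg (Equiv.addRight 1) P f g N x)) ^ p := by
          rw [Finset.sum_biUnion hdisj]
      _ ≤ _ := ENNReal.sum_le_tsum _

/-- The shift on `ℤ` as a measurable equivalence. -/
def shiftZ : ℤ ≃ᵐ ℤ where
  toEquiv := Equiv.addRight 1
  measurable_toFun := measurable_from_top
  measurable_invFun := measurable_from_top

theorem mp_shiftZ : MeasurePreserving shiftZ (Measure.count : Measure ℤ) Measure.count := by
  refine ⟨measurable_from_top, ?_⟩
  ext S hS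
  rw [Measure.map_apply shiftZ.measurable hS, Measure.count_apply (shiftZ.measurable hS),
    Measure.count_apply hS]
  exact congrArg _ (Set.encard_preimage_of_bijective shiftZ.toEquiv.bijective S)

/-- The variational estimate (iv) fails at every exponent pair `(p₁, ∞)` with `1 < p₁ < ∞`, for every integer
polynomial `P` of degree at least `2`, every `r` and every `lam`; moreover it fails for the single system `ℤ` with
counting measure and the shift, and there for a single pair `f, g` and a single set `D` of scales. -/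
theorem result (P : Polynomial ℤ) (hP : 2 ≤ P.natDegree) (p₁ : ℝ≥0∞) (hp : 1 < p₁) (hp' : p₁ ≠ ∞)
    (r : ℝ) (hr : 2 < r) (lam : ℝ) (_hlam : 1 < lam) :
    (MeasurePreserving shiftZ (Measure.count : Measure ℤ) Measure.count ∧
      ∃ (D : Set ℝ) (f g : ℤ → ℂ), Lacunary lam D ∧ MemLp f p₁ Measure.count ∧ MemLp g ∞ Measure.count ∧
        eLpNorm (fun x => vNorm r D (fun N => avg shiftZ.toEquiv P f g N x)) p₁ Measure.count = ∞) ∧
    ¬ PropertyIV p₁ ∞ p₁ P r lam := by
  have hp0 : p₁ ≠ 0 := (lt_trans zero_lt_one hp).ne'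
  have hpr : 0 < p₁.toReal := ENNReal.toReal_pos hp0 hp'
  obtain ⟨D, f, g, hD, hf, hg, hdiv⟩ := core P hP p₁.toReal hpr r (by linarith) lam
  have hmf : MemLp f p₁ (Measure.count : Measure ℤ) := by
    refine ⟨(measurable_from_top).aestronglyMeasurable, ?_⟩
    rw [eLpNorm_eq_lintegral_rpow_enorm_toReal hp0 hp', lintegral_count]
    exact ENNReal.rpow_lt_top_of_nonneg (by positivity) hf
  have hmg : MemLp g ∞ (Measure.count : Measure ℤ) :=
    memLp_top_of_bound (measurable_from_top).aestronglyMeasurable 1 (Filter.Eventually.of_forall hg)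
  have hinf : eLpNorm (fun x => vNorm r D (fun N => avg shiftZ.toEquiv P f g N x)) p₁
      (Measure.count : Measure ℤ) = ∞ := by
    rw [eLpNorm_eq_lintegral_rpow_enorm_toReal hp0 hp', lintegral_count]
    simp only [enorm_eq_self]
    have : shiftZ.toEquiv = Equiv.addRight 1 := rfl
    rw [this, hdiv]
    exact ENNReal.top_rpow_of_pos (by positivity)
  refine ⟨⟨mp_shiftZ, D, f, g, hD, hmf, hmg, hinf⟩, ?_⟩
  rintro ⟨C, hC⟩
  have h := hC ℤ Measure.count shiftZ mp_shiftZ f g hmf hmg D hD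
  rw [hinf, top_le_iff] at h
  exact (ENNReal.mul_ne_top (ENNReal.mul_ne_top ENNReal.coe_ne_top hmf.2.ne) hmg.2.ne) h

end Pool.Agent.Results.MP_779522_an.EndpointVariationFails
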